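import Pool.Agent.H70.OQ.Targets

/-!
# LWS, UWS, CL0, LIV, SYM: random sets of live elements
-/

set_option autoImplicit false

namespace Pool.Agent.H62.OQ

open Pool.Agent.H70.OQ Finset

noncomputable section

/-- LWS. -/
theorem lws : T_LWS := by
  intro A _ _ q
  unfold lw
  rw [← Fintype.prod_sum (f := fun (_ : A) (b : Bool) => if b then q else 1 - q)]
  simp

/-- UWS. -/
theorem uws : T_UWS := by
  intro A Z _ _ _ _ L
  refine ⟨?_, ?_⟩
  · intro h
    unfold uw
    refine prod_nonneg fun a _ => ?_
    split_ifs <;> positivity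
  · intro hL
    unfold uw
    rw [← Fintype.prod_sum (f := fun (a : A) (z : Z) =>
      if z ∈ L a then 1 / ((L a).card : ℝ) else 0)]
    refine prod_eq_one fun a _ => ?_
    rw [← sum_filter]
    simp only [filter_mem_eq_inter, univ_inter, sum_const, nsmul_eq_mul]
    have : ((L a).card : ℝ) ≠ 0 := by
      have := (hL a).card_pos
      positivity
    field_simp

/-- Expectation of a product. -/
lemma lw_prod {A : Type} [Fintype A] [DecidableEq A] (q : ℝ) (φ : A → Bool → ℝ) :
    ∑ l : A → Bool, lw q l * ∏ a, φ a (l a) = ∏ a, (q * φ a true + (1 - q) * φ a false) := by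
  have h : ∀ l : A → Bool, lw q l * ∏ a, φ a (l a) =
      ∏ a, ((if l a then q else 1 - q) * φ a (l a)) := by
    intro l
    unfold lw
    rw [prod_mul_distrib]
  simp only [h]
  rw [← Fintype.prod_sum (f := fun (a : A) (b : Bool) => (if b then q else 1 - q) * φ a b)]
  simp

lemma lw_nonneg {A : Type} [Fintype A] (q : ℝ) (h0 : 0 ≤ q) (h1 : q ≤ 1) (l : A → Bool) :
    0 ≤ lw q l := by
  unfold lw
  refine prod_nonneg fun a _ => ?_
  split_ifs <;> linarith

/-- The marginal. -/
lemma lw_marg {A : Type} [Fintype A] [DecidableEq A] (q : ℝ) (x : A) :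
    ∑ l : A → Bool, lw q l * (if l x = true then 1 else 0) = q := by
  have h := lw_prod q (fun (a : A) (b : Bool) => if a = x then (if b = true then 1 else 0) else 1)
  have e1 : ∀ l : A → Bool, (∏ a, (if a = x then (if l a = true then (1 : ℝ) else 0) else 1)) =
      if l x = true then 1 else 0 := by
    intro l
    rw [prod_ite_eq' univ x]
    simp
  have e2 : ∏ a : A, (q * (if a = x then (if (true : Bool) = true then (1 : ℝ) else 0) else 1) +
      (1 - q) * (if a = x then (if (false : Bool) = true then (1 : ℝ) else 0) else 1)) = q := by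
    have : ∀ a : A, (q * (if a = x then (if (true : Bool) = true then (1 : ℝ) else 0) else 1) +
      (1 - q) * (if a = x then (if (false : Bool) = true then (1 : ℝ) else 0) else 1)) =
        if a = x then q else 1 := by
      intro a
      by_cases ha : a = x <;> simp [ha]
    rw [prod_congr rfl fun a _ => this a, prod_ite_eq' univ x]
    simp
  rw [e2] at h
  refine Eq.trans ?_ h
  refine sum_congr rfl fun l _ => ?_
  rw [e1]

lemma ic_le_one (p : Prop) : ic p ≤ 1 := by
  unfold ic
  split_ifs <;> norm_num

lemma ic_nonneg (p : Prop) : 0 ≤ ic p := by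
  unfold ic
  split_ifs <;> norm_num

lemma ic_pos {p : Prop} (h : p) : ic p = 1 := by
  unfold ic
  rw [if_pos h]

lemma ic_neg {p : Prop} (h : ¬ p) : ic p = 0 := by
  unfold ic
  rw [if_neg h]

/-- CL0. -/
theorem cl0 (h1 : T_LWS) : T_CL0 := by
  intro X _ _ p S m hp0 hp1 hm hS
  have hS' : (0 : ℝ) < S.card := by exact_mod_cast hS
  have hE : ∑ l : X → Bool, lw p l * ((S.filter fun x => l x = true).card : ℝ) = S.card * p := by
    have : ∀ l : X → Bool, lw p l * ((S.filter fun x => l x = true).card : ℝ) =
        ∑ x ∈ S, lw p l * (if l x = true then 1 else 0) := by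
      intro l
      rw [card_filter, ← mul_sum]
      push_cast
      rfl
    simp only [this]
    rw [sum_comm]
    simp only [lw_marg]
    rw [sum_const, nsmul_eq_mul]
  have hle : ∑ l : X → Bool, lw p l * ((S.filter fun x => l x = true).card : ℝ) ≤
      ∑ l : X → Bool, lw p l * (m + S.card * ic (m < (S.filter fun x => l x = true).card)) := by
    refine sum_le_sum fun l _ => ?_
    refine mul_le_mul_of_nonneg_left ?_ (lw_nonneg p hp0 hp1 l)
    by_cases h : m < (S.filter fun x => l x = true).card
    · rw [ic_pos h, mul_one]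
      have : ((S.filter fun x => l x = true).card : ℝ) ≤ S.card := by
        exact_mod_cast card_filter_le _ _
      have : (0 : ℝ) ≤ m := Nat.cast_nonneg m
      linarith
    · rw [ic_neg h, mul_zero, add_zero]
      exact_mod_cast not_lt.1 h
  rw [hE] at hle
  have hsplit : ∑ l : X → Bool, lw p l * (m + S.card * ic (m < (S.filter fun x => l x = true).card))
      = m + S.card * ∑ l : X → Bool, lw p l * ic (m < (S.filter fun x => l x = true).card) := by
    rw [mul_sum]
    have h2 : (m : ℝ) = ∑ l : X → Bool, lw p l * m := by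
      rw [← sum_mul, h1, one_mul]
    conv_rhs => rw [h2]
    rw [← sum_add_distrib]
    refine sum_congr rfl fun l _ => ?_
    ring
  rw [hsplit] at hle
  have h3 : (S.card : ℝ) * (p / 2) ≤
      S.card * ∑ l : X → Bool, lw p l * ic (m < (S.filter fun x => l x = true).card) := by
    linarith
  exact le_of_mul_le_mul_left h3 hS'

/-- LIV. -/
theorem liv : T_LIV := by
  classical
  intro A Z _ _ _ _ q M G h0 h1 hG
  obtain ⟨e⟩ : Nonempty (Fin M × Fin G ↪ Z) := by
    apply Function.Embedding.nonempty_of_card_le
    rw [Fintype.card_prod, Fintype.card_fin, Fintype.card_fin]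
    linarith [mul_comm G M]
  have hpt : ∀ l : A × Z → Bool,
      ic (∃ a, (univ.filter fun z => l (a, z) = true).card < M) ≤
        ∑ a : A, ∑ i : Fin M, ∏ x : A × Z,
          (if x ∈ (univ : Finset (Fin G)).image (fun g => (a, e (i, g))) then
            (if l x = true then (0 : ℝ) else 1) else 1) := by
    intro l
    have hnn : ∀ (a : A) (i : Fin M), (0 : ℝ) ≤ ∏ x : A × Z,
          (if x ∈ (univ : Finset (Fin G)).image (fun g => (a, e (i, g))) then
            (if l x = true then (0 : ℝ) else 1) else 1) := by
      intro a i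
      refine prod_nonneg fun x _ => ?_
      split_ifs <;> norm_num
    by_cases h : ∃ a, (univ.filter fun z => l (a, z) = true).card < M
    · rw [ic_pos h]
      obtain ⟨a, ha⟩ := h
      have hi : ∃ i : Fin M, ∀ g : Fin G, l (a, e (i, g)) = false := by
        by_contra hn
        push Not at hn
        choose g hg using hn
        have : M ≤ (univ.filter fun z => l (a, z) = true).card := by
          calc M = (univ.image fun i : Fin M => e (i, g i)).card := by
                rw [card_image_of_injective, card_univ, Fintype.card_fin]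
                intro i j hij
                have := e.injective hij
                exact (Prod.mk.inj this).1
            _ ≤ _ := by
                refine card_le_card ?_
                intro z hz
                rw [mem_image] at hz
                obtain ⟨i, -, rfl⟩ := hz
                rw [mem_filter]
                refine ⟨mem_univ _, ?_⟩
                have := hg i
                simpa using this
        omega
      obtain ⟨i, hi⟩ := hi
      have hone : ∏ x : A × Z,
          (if x ∈ (univ : Finset (Fin G)).image (fun g => (a, e (i, g))) then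
            (if l x = true then (0 : ℝ) else 1) else 1) = 1 := by
        refine prod_eq_one fun x _ => ?_
        split_ifs with h1 h2
        · exfalso
          rw [mem_image] at h1
          obtain ⟨g, -, rfl⟩ := h1
          rw [hi g] at h2
          exact Bool.false_ne_true h2
        · rfl
        · rfl
      calc (1 : ℝ) = _ := hone.symm
        _ ≤ ∑ i : Fin M, ∏ x : A × Z,
          (if x ∈ (univ : Finset (Fin G)).image (fun g => (a, e (i, g))) then
            (if l x = true then (0 : ℝ) else 1) else 1) :=
          single_le_sum (f := fun i : Fin M => ∏ x : A × Z,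
          (if x ∈ (univ : Finset (Fin G)).image (fun g => (a, e (i, g))) then
            (if l x = true then (0 : ℝ) else 1) else 1)) (fun j _ => hnn a j) (mem_univ i)
        _ ≤ _ := single_le_sum (f := fun a : A => ∑ i : Fin M, ∏ x : A × Z,
          (if x ∈ (univ : Finset (Fin G)).image (fun g => (a, e (i, g))) then
            (if l x = true then (0 : ℝ) else 1) else 1))
            (fun b _ => sum_nonneg fun j _ => hnn b j) (mem_univ a)
    · rw [ic_neg h]
      exact sum_nonneg fun a _ => sum_nonneg fun i _ => hnn a i
  have hval : ∀ (a : A) (i : Fin M), ∑ l : A × Z → Bool, lw q l * ∏ x : A × Z,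
      (if x ∈ (univ : Finset (Fin G)).image (fun g => (a, e (i, g))) then
        (if l x = true then (0 : ℝ) else 1) else 1) = (1 - q) ^ G := by
    intro a i
    rw [lw_prod q (fun (x : A × Z) (b : Bool) =>
      if x ∈ (univ : Finset (Fin G)).image (fun g => (a, e (i, g))) then
        (if b = true then (0 : ℝ) else 1) else 1)]
    have : ∀ x : A × Z, (q * (if x ∈ (univ : Finset (Fin G)).image (fun g => (a, e (i, g))) then
        (if (true : Bool) = true then (0 : ℝ) else 1) else 1) +
        (1 - q) * (if x ∈ (univ : Finset (Fin G)).image (fun g => (a, e (i, g))) then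
        (if (false : Bool) = true then (0 : ℝ) else 1) else 1)) =
        if x ∈ (univ : Finset (Fin G)).image (fun g => (a, e (i, g))) then 1 - q else 1 := by
      intro x
      by_cases hx : x ∈ (univ : Finset (Fin G)).image (fun g => (a, e (i, g)))
      · simp only [if_pos hx]; simp
      · simp only [if_neg hx]; ring
    rw [prod_congr rfl fun x _ => this x, ← prod_filter, filter_mem_eq_inter, univ_inter, prod_const, card_image_of_injective,
      card_univ, Fintype.card_fin]
    intro g g' hgg
    have := e.injective (Prod.mk.inj hgg).2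
    exact (Prod.mk.inj this).2
  calc ∑ l : A × Z → Bool, lw q l * ic (∃ a, (univ.filter fun z => l (a, z) = true).card < M)
      ≤ ∑ l : A × Z → Bool, lw q l * ∑ a : A, ∑ i : Fin M, ∏ x : A × Z,
          (if x ∈ (univ : Finset (Fin G)).image (fun g => (a, e (i, g))) then
            (if l x = true then (0 : ℝ) else 1) else 1) :=
        sum_le_sum fun l _ => mul_le_mul_of_nonneg_left (hpt l) (lw_nonneg q h0 h1 l)
    _ = ∑ a : A, ∑ i : Fin M, ∑ l : A × Z → Bool, lw q l * ∏ x : A × Z,
          (if x ∈ (univ : Finset (Fin G)).image (fun g => (a, e (i, g))) then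
            (if l x = true then (0 : ℝ) else 1) else 1) := by
        simp only [mul_sum]
        rw [sum_comm]
        refine sum_congr rfl fun a _ => ?_
        rw [sum_comm]
    _ = Fintype.card A * M * (1 - q) ^ G := by
        simp only [hval, sum_const, card_univ, Fintype.card_fin, nsmul_eq_mul]
        ring
    _ ≤ _ := le_refl _

/-- The chosen set of a single node. -/
def Lm {Z : Type} [Fintype Z] [DecidableEq Z] (m : Z → Bool) : Finset Z :=
  if (univ.filter fun z => m z = true) = ∅ then univ else univ.filter fun z => m z = true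

lemma Lm_nonempty {Z : Type} [Fintype Z] [DecidableEq Z] [Nonempty Z] (m : Z → Bool) :
    (Lm m).Nonempty := by
  unfold Lm
  split_ifs with h
  · exact univ_nonempty
  · exact nonempty_iff_ne_empty.2 h

/-- The weight of `z` for a single node. -/
def ps {Z : Type} [Fintype Z] [DecidableEq Z] (m : Z → Bool) (z : Z) : ℝ :=
  if z ∈ Lm m then 1 / ((Lm m).card : ℝ) else 0

lemma Lm_comp {Z : Type} [Fintype Z] [DecidableEq Z] (m : Z → Bool) (σ : Equiv.Perm Z) :
    Lm (fun z => m (σ z)) = (Lm m).map σ.symm.toEmbedding := by
  have h : (univ.filter fun z => m (σ z) = true) =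
      (univ.filter fun z => m z = true).map σ.symm.toEmbedding := by
    ext z
    simp only [mem_filter, mem_univ, true_and, mem_map, Equiv.toEmbedding_apply]
    constructor
    · intro h
      exact ⟨σ z, h, by simp⟩
    · rintro ⟨w, hw, rfl⟩
      simpa using hw
  unfold Lm
  rw [h]
  by_cases h0 : (univ.filter fun z => m z = true) = ∅
  · rw [if_pos h0, if_pos (by rw [h0, map_empty])]
    ext z
    simp
  · rw [if_neg h0, if_neg (by rwa [map_eq_empty])]

lemma ps_comp {Z : Type} [Fintype Z] [DecidableEq Z] (m : Z → Bool) (σ : Equiv.Perm Z) (z : Z) :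
    ps (fun z => m (σ z)) z = ps m (σ z) := by
  unfold ps
  rw [Lm_comp, card_map]
  have : (z ∈ (Lm m).map σ.symm.toEmbedding) ↔ σ z ∈ Lm m := by
    rw [mem_map_equiv, Equiv.symm_symm]
  simp only [this]

lemma ps_sum {Z : Type} [Fintype Z] [DecidableEq Z] [Nonempty Z] (m : Z → Bool) :
    ∑ z, ps m z = 1 := by
  unfold ps
  rw [← sum_filter]
  simp only [filter_mem_eq_inter, univ_inter, sum_const, nsmul_eq_mul]
  have : ((Lm m).card : ℝ) ≠ 0 := by
    have := (Lm_nonempty m).card_pos
    positivity
  field_simp

lemma lw_comp {Z : Type} [Fintype Z] (q : ℝ) (m : Z → Bool) (σ : Equiv.Perm Z) :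
    lw q (fun z => m (σ z)) = lw q m := by
  unfold lw
  exact Equiv.prod_comp σ (fun z => if m z then q else 1 - q)

lemma cz_eq {Z : Type} [Fintype Z] [DecidableEq Z] [Nonempty Z] (q : ℝ) (z : Z) :
    ∑ m : Z → Bool, lw q m * ps m z = 1 / (Fintype.card Z : ℝ) := by
  have hsw : ∀ z0 z1 : Z, ∑ m : Z → Bool, lw q m * ps m z0 = ∑ m : Z → Bool, lw q m * ps m z1 := by
    intro z0 z1
    rw [← Equiv.sum_comp (Equiv.arrowCongr (Equiv.swap z0 z1) (Equiv.refl Bool))
      (fun m => lw q m * ps m z0)]
    refine sum_congr rfl fun m _ => ?_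
    have e : (Equiv.arrowCongr (Equiv.swap z0 z1) (Equiv.refl Bool)) m =
        fun z => m (Equiv.swap z0 z1 z) := by
      funext z
      simp [Equiv.arrowCongr]
    rw [e, lw_comp, ps_comp, Equiv.swap_apply_left]
  have htot : ∑ z0 : Z, ∑ m : Z → Bool, lw q m * ps m z0 = 1 := by
    rw [sum_comm]
    simp only [← mul_sum, ps_sum, mul_one]
    exact lws Z q
  have hcard : (Fintype.card Z : ℝ) ≠ 0 := by
    have := Fintype.card_pos (α := Z)
    positivity
  rw [eq_div_iff hcard]
  have : ∑ z0 : Z, ∑ m : Z → Bool, lw q m * ps m z0 =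
      ∑ _z0 : Z, ∑ m : Z → Bool, lw q m * ps m z := sum_congr rfl fun z0 _ => hsw z0 z
  rw [this, sum_const, card_univ, nsmul_eq_mul] at htot
  linarith

/-- SYM. -/
theorem sym : T_SYM := by
  intro A Z _ _ _ _ _ q F
  have key : ∀ h : A → Z, ∑ l : A × Z → Bool, lw q l * uw (Lof l) h =
      1 / (Fintype.card Z : ℝ) ^ Fintype.card A := by
    intro h
    have e1 : ∀ l : A × Z → Bool, lw q l * uw (Lof l) h =
        ∏ a, (lw q (fun z => l (a, z)) * ps (fun z => l (a, z)) (h a)) := by
      intro l
      rw [prod_mul_distrib]
      congr 1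
      unfold lw
      rw [Fintype.prod_prod_type]
    simp only [e1]
    rw [← Equiv.sum_comp (Equiv.curry A Z Bool).symm]
    have e2 : ∀ m : A → Z → Bool, (∏ a, (lw q (fun z => ((Equiv.curry A Z Bool).symm m) (a, z)) *
        ps (fun z => ((Equiv.curry A Z Bool).symm m) (a, z)) (h a))) =
        ∏ a, (lw q (m a) * ps (m a) (h a)) := by
      intro m
      rfl
    simp only [e2]
    rw [← Fintype.prod_sum (f := fun (a : A) (m : Z → Bool) => lw q m * ps m (h a))]
    simp only [cz_eq]
    rw [prod_const, card_univ, div_pow, one_pow]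
  have : ∑ l : A × Z → Bool, lw q l * ∑ h : A → Z, uw (Lof l) h * F h =
      ∑ h : A → Z, (∑ l : A × Z → Bool, lw q l * uw (Lof l) h) * F h := by
    simp only [mul_sum, sum_mul]
    rw [sum_comm]
    refine sum_congr rfl fun h _ => sum_congr rfl fun l _ => ?_
    ring
  rw [this]
  simp only [key]
  rw [← mul_sum]
  ring

end

end Pool.Agent.H62.OQ
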